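import Pool.Agent.K3h18.PX.Link
import Pool.Agent.Y667.OG.Main
import Pool.Agent.Y67.QKE.TAU

/-!
# The root numbers over all number fields of the curves with given 2-Selmer rank over the rationals
-/

set_option autoImplicit false
set_option linter.style.haveILetI false
set_option linter.unusedSectionVars false

namespace Pool.Agent.K3h18.PQ

open Finset NumberField Ideal Pool.Agent.W262.RK Pool.Agent.W307.RT Pool.Agent.W307.RS
  Pool.Agent.W307.SE Pool.Agent.W307.FK Pool.Agent.Y667.RP Pool.Agent.Y667.RZ Pool.Agent.Y667.MT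
open Pool.Agent.Y285.RP Pool.Agent.Y285.RZ Pool.Agent.Y738.MT Pool.Agent.Y667.OG
open Pool.Agent.Y667.PA
open Pool.Agent.Y667.QK (AdT)
open Pool.Agent.K3h18.PX

theorem gal_rat : @IsGalois ℚ _ ℚ _ DivisionRing.toRatAlgebra := by
  have h : (DivisionRing.toRatAlgebra : Algebra ℚ ℚ) = Algebra.id ℚ := Subsingleton.elim _ _
  rw [h]
  exact IsGalois.self ℚ

theorem one_prime' (K : Type) [Field K] [NumberField K] [IsGalois ℚ K]
    (h1 : Module.finrank ℚ K = 1) {p : ℕ} (hp : p.Prime) :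
    (primesOver (span {(p : ℤ)}) (𝓞 K)).ncard = 1 := by
  have : Fact p.Prime := ⟨hp⟩
  have hmax : (span {(p : ℤ)}).IsMaximal := Int.ideal_span_isMaximal_of_prime p
  have hprime : (span {(p : ℤ)}).IsPrime := hmax.isPrime
  have h := ncard_primesOver_mul_ramificationIdxIn_mul_inertiaDegIn (span {(p : ℤ)}) (𝓞 K) Gal(K/ℚ)
  rw [IsGaloisGroup.card_eq_finrank Gal(K/ℚ) ℚ K, h1] at h
  exact Nat.eq_one_of_mul_eq_one_right h

theorem one_prime {p : ℕ} (hp : p.Prime) : (primesOver (span {(p : ℤ)}) (𝓞 ℚ)).ncard = 1 := by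
  haveI := gal_rat
  exact one_prime' ℚ (Module.finrank_self ℚ) hp

open Classical in
theorem ee_rat {S : Finset ℕ} {e w : ℕ → ℤ} (hS : ∀ p ∈ S, p.Prime)
    (h : ∀ p ∈ S, ∀ P ∈ primesOver (span {(p : ℤ)}) (𝓞 ℚ),
      w p = if P ∈ Sq p (e p) (𝓞 ℚ) then -1 else 1) :
    (-1 : ℤ) ^ PX.ee ℚ S e = -∏ p ∈ S, w p := by
  have h1 : Nat.card (InfinitePlace ℚ) = 1 := by
    rw [Nat.card_eq_fintype_card]
    exact Fintype.card_eq_one_iff_nonempty_unique.2 ⟨inferInstance⟩
  unfold PX.ee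
  rw [pow_add, h1, pow_one, ← prod_pow_eq_pow_sum, neg_one_mul]
  congr 1
  refine prod_congr rfl fun p hp => ?_
  obtain ⟨P, hP⟩ := Set.ncard_eq_one.1 (one_prime (hS p hp))
  have hPm : P ∈ primesOver (span {(p : ℤ)}) (𝓞 ℚ) := by rw [hP]; rfl
  rw [h p hp P hPm]
  by_cases h2 : P ∈ Sq p (e p) (𝓞 ℚ)
  · have h3 : Sq p (e p) (𝓞 ℚ) = {P} := by
      ext Q
      constructor
      · intro hQ
        have := hQ.1
        rw [hP] at this
        exact this
      · rintro rfl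
        exact h2
    rw [if_pos h2, h3, Set.ncard_singleton, pow_one]
  · have h3 : Sq p (e p) (𝓞 ℚ) = ∅ := by
      ext Q
      constructor
      · intro hQ
        have h4 := hQ.1
        rw [hP] at h4
        have h5 : Q = P := h4
        rw [h5] at hQ
        exact absurd hQ h2
      · exact fun h => absurd h (Set.notMem_empty _)
    rw [if_neg h2, h3, Set.ncard_empty, pow_zero]

/-- the root number over every number field `K` is `(-1) ^ ee K`, and `ee ℚ` has the parity of `r` -/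
def DatQ (r : ℕ) (c : ℤ × ℤ) : Prop :=
  ∃ (S : Finset ℕ) (e : ℕ → ℤ), Ok S e ∧
    (∀ (K : Type) [Field K] [NumberField K], RootNumberK
      ((⟨0, 0, 0, (c.1 : ℚ), (c.2 : ℚ)⟩ : WeierstrassCurve ℚ).map (algebraMap ℚ K))
        ((-1) ^ PX.ee K S e)) ∧ (-1 : ℤ) ^ PX.ee ℚ S e = (-1) ^ r

open Classical in
theorem dat_of {r τ : ℕ} {s : Fin 3 → ℕ} (hA : AdT τ) (h : DP s)
    (hcop : Nat.Coprime τ (∏ j, s j)) {k : ℤ} (hk : (s 0 : ℤ) + s 1 = 3 * k)
    (hF : ∀ p ∈ insert 2 (∏ j, s j).primeFactors, ∀ (F : Type) [Field F] [Fintype F] [CharP F p]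
      (f : ℕ), Odd f → Fintype.card F = p ^ f →
        aF F (Vm ((τ : ℤ) * s 1) ((τ : ℤ) * s 2)) = ap (Vm ((τ : ℤ) * s 1) ((τ : ℤ) * s 2)) p)
    (hprod : -∏ p ∈ insert 2 (∏ j, s j).primeFactors, (-ap (Vm ((τ : ℤ) * s 1) ((τ : ℤ) * s 2)) p) =
      (-1) ^ r) :
    DatQ r (cc ((τ : ℤ) * s 0) ((τ : ℤ) * s 1) ((τ : ℤ) * k)) := by
  obtain ⟨e, hok, he⟩ := loc hA h hcop
  refine ⟨insert 2 (∏ j, s j).primeFactors, e, hok, fun K _ _ => ?_, ?_⟩
  · exact root_all Pool.Agent.Y67.QKE.TAU hA h hcop hk he K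
  · rw [← hprod]
    refine ee_rat (fun p hp => (hok p hp).1) fun p hp P hP => ?_
    have hpp := (hok p hp).1
    have hPm : P.IsMaximal := hP.1.isMaximal (Pool.Agent.Y667.OG.over_ne hpp hP)
    letI : Field (𝓞 ℚ ⧸ P) := Ideal.Quotient.field P
    have fK : Finite (𝓞 ℚ ⧸ P) := by
      apply Nat.finite_of_card_ne_zero
      rw [card_quot P hP.1 (Pool.Agent.Y667.OG.over_ne hpp hP), below_eq hpp hP]
      exact pow_ne_zero _ hpp.ne_zero
    letI : Fintype (𝓞 ℚ ⧸ P) := Fintype.ofFinite _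
    have hch : CharP (𝓞 ℚ ⧸ P) p := by
      have := charP_quot P
      rwa [below_eq hpp hP] at this
    have h1 := he ℚ p hp P hP
    rw [aP_eq] at h1
    haveI := gal_rat
    have hodd := ((odd_all ℚ (by
      have : Module.finrank ℚ ℚ = 1 := Module.finrank_self ℚ
      rw [this]
      exact odd_one) hpp).2 P hP).1
    have hcard : Fintype.card (𝓞 ℚ ⧸ P) = p ^ P.inertiaDeg ℤ := by
      rw [← Nat.card_eq_fintype_card, card_quot P hP.1 (Pool.Agent.Y667.OG.over_ne hpp hP),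
        below_eq hpp hP]
    rw [hF p hp (𝓞 ℚ ⧸ P) _ hodd hcard] at h1
    exact h1

/-- the property of the curves -/
def TQ (r : ℕ) (c : ℤ × ℤ) : Prop := TPR r c ∧ DatQ r c

theorem adT_one : AdT 1 := ⟨squarefree_one, fun q hq => by simp at hq, fun q hq => by simp at hq⟩

theorem adT_17 : AdT 17 := by
  have h : (17 : ℕ).primeFactors = {17} := Nat.Prime.primeFactors (by norm_num)
  refine ⟨(by norm_num : Nat.Prime 17).squarefree, fun q hq => ?_, fun q hq q' hq' hne => ?_⟩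
  · rw [h, mem_singleton] at hq
    rw [hq]
  · rw [h, mem_singleton] at hq hq'
    exact absurd (hq.trans hq'.symm) hne

open Classical in
theorem curvesQ (r : ℕ) : ∃ c : ℝ, 0 < c ∧ ∃ H0 : ℕ, ∀ H : ℕ, H0 ≤ H →
    c * ((Cv 2 H).card : ℝ) ≤ (((Cv 2 H).filter (TQ r)).card : ℝ) := by
  refine transR r (TQ r) fun X t ht h => ?_
  obtain ⟨s, hs, e0, e1, hkk, h | h⟩ := pair_of ht h
  · left
    refine ⟨h.1, ?_⟩
    have hD : DP s := ⟨hs.sq, hs.odd, hs.rel, hs.m0, hs.m1⟩
    have h1 := dat_of (r := r) (τ := 1) adT_one hD (Nat.coprime_one_left _) hkk (by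
      intro p hp F _ _ _ f hf hq
      have := aF_pair hD hp F f hf hq
      push_cast
      rw [one_mul, one_mul]
      exact this) (by
      rw [← npow_eq h.2, ← hD.wSemi_eq]
      unfold wSemi
      rw [hD.primes]
      push_cast
      rw [one_mul, one_mul])
    rw [← e0, ← e1]
    push_cast at h1
    rw [one_mul, one_mul, one_mul] at h1
    rw [e0, e1] at h1 ⊢
    exact h1
  · right
    refine ⟨h.1, ?_⟩
    have hD : DP s := ⟨hs.sq, hs.odd, hs.rel, hs.m0, hs.m1⟩
    have h17 : ¬ 17 ∣ ∏ j, s j := by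
      intro h
      have := hs.big 17 (by norm_num) h
      omega
    have h1 := dat_of (r := r) (τ := 17) adT_17 hD
      ((Nat.Prime.coprime_iff_not_dvd (by norm_num)).2 h17) hkk (by
      intro p hp F _ _ _ f hf hq
      have := aF_pair17 hD hp F f hf hq
      push_cast
      exact this) (by
      have m8' : (s 1 : ℤ) % 8 = 1 := by have := hD.m1; omega
      have m8 : (17 * (s 1 : ℤ)) % 8 = 1 := by have := hD.m1; omega
      have h6 : ∏ p ∈ (∏ j, s j).primeFactors, (-ap (Vm (17 * s 1) (17 * s 2)) p) =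
          ∏ p ∈ (∏ j, s j).primeFactors, (jacobiSym 17 p * -ap (Vm (s 1) (s 2)) p) :=
        prod_congr rfl fun p hp => by rw [hD.ap17 hp]; ring
      rw [prod_mul_distrib, Pool.Agent.Y655.RZ.jac17 hD.sq hD.odd hD.rel hs.n0 hs.n1] at h6
      have h7 := hD.wSemi_eq
      unfold wSemi at h7
      rw [hD.primes, prod_insert hD.two, ap_two m8'] at h7
      push_cast
      rw [prod_insert hD.two, ap_two m8, h6, ← npow_eq h.2, pow_succ, ← h7]
      ring)
    rw [e0, e1] at h1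
    exact_mod_cast h1

end Pool.Agent.K3h18.PQ
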