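import Pool.Agent.K3h18.PX.Det

/-!
# Statements: subgroups of prime index with a small complement
-/

set_option autoImplicit false

namespace Pool.Agent.K3h18.PQ

open Pool.Agent.K3h18.PX

/-- an endomorphism of a lattice whose square is an integer which is not a square -/
def St_SQE : Prop := ∀ (B : Type) [AddCommGroup B] [Module.Free ℤ B] [Module.Finite ℤ B]
  (S : B →ₗ[ℤ] B) (c : ℤ), (∀ b, S (S b) = c • b) → ¬ IsSquare c → Even (Module.finrank ℤ B)

/-- the square of the Gauss sum, in the endomorphisms of a module -/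
def St_GSS : Prop := ∀ (p : ℕ) [Fact p.Prime], p ≠ 2 → ∀ (B : Type) [AddCommGroup B]
  (σ : B →ₗ[ℤ] B), (σ ^ p = 1) → ∀ b : B, (∑ a : ZMod p, (σ ^ a.val) b = 0) →
    (∑ a : ZMod p, quadraticChar (ZMod p) a • (σ ^ a.val)
      (∑ a' : ZMod p, quadraticChar (ZMod p) a' • (σ ^ a'.val) b)) =
      (quadraticChar (ZMod p) (-1) * (p : ℤ)) • b

/-- a subgroup `H` of prime index `p` and of an order which divides `(p - 1) / 2` -/
def St_PRM : Prop := ∀ (G : Type) [Group G] [Finite G] (H : Subgroup G) (p : ℕ), p.Prime → p ≠ 2 →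
  Nat.card G = p * Nat.card H → Nat.card H ∣ (p - 1) / 2 → PP H ⊤

end Pool.Agent.K3h18.PQ
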