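import Pool.Agent.K3h18.PQ.Base
import Pool.Agent.K3h18.PQ.Stm

/-!
# Extensions of prime degree
-/

set_option autoImplicit false
set_option linter.style.haveILetI false
set_option linter.unusedSectionVars false

namespace Pool.Agent.K3h18.PQ

open NumberField Pool.Agent.K3h18.PX

theorem same_refl {c : ℤ × ℤ} {S : Finset ℕ} {e : ℕ → ℤ} {M : Type} [Field M] [NumberField M] :
    Same c S e M M := ⟨⟨_, rfl⟩, ⟨_, rfl⟩⟩

theorem even_trans {a b c : ℕ} (h1 : Even (a + b)) (h2 : Even (b + c)) : Even (a + c) := by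
  obtain ⟨x, hx⟩ := h1
  obtain ⟨y, hy⟩ := h2
  exact ⟨x + y - b, by omega⟩

theorem same_trans {c : ℤ × ℤ} {S : Finset ℕ} {e : ℕ → ℤ} {F M K : Type} [Field F] [NumberField F]
    [Field M] [NumberField M] [Field K] [NumberField K] (h1 : Same c S e F M)
    (h2 : Same c S e M K) : Same c S e F K :=
  ⟨even_trans h1.ex h2.ex, even_trans h1.rk h2.rk⟩

theorem card_gal (M K L : Type) [Field M] [NumberField M] [Field K] [NumberField K]
    [Field L] [NumberField L] [Algebra M K] [Algebra K L] [Algebra M L] [IsScalarTower M K L]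
    [IsGalois M L] : Nat.card (gal M K L) = Module.finrank K L := by
  haveI : IsGalois K L := IsGalois.tower_top_of_isGalois M K L
  have hinj : Function.Injective (AlgEquiv.restrictScalarsHom M : (L ≃ₐ[K] L) →* (L ≃ₐ[M] L)) := by
    intro σ τ h
    ext x
    exact congrArg (fun f : L ≃ₐ[M] L => f x) h
  unfold gal
  rw [← IsGalois.card_aut_eq_finrank K L]
  exact Nat.card_congr (MonoidHom.ofInjective hinj).toEquiv.symm

/-- an extension of prime degree `p` in a Galois extension -/
theorem pp_prime' (hP : St_PRM) (M K L : Type) [Field M] [NumberField M] [Field K] [NumberField K]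
    [Field L] [NumberField L] [Algebra M K] [Algebra K L] [Algebra M L] [IsScalarTower M K L]
    [IsGalois M L] (p : ℕ) (hp : p.Prime) (hp2 : p ≠ 2) (hd : Module.finrank M K = p)
    (hL : Module.finrank K L ∣ (p - 1) / 2) : PP (gal M M L) (gal M K L) := by
  rw [gal_top]
  apply PP.symm
  refine hP (L ≃ₐ[M] L) (gal M K L) p hp hp2 ?_ ?_
  · rw [card_gal, IsGalois.card_aut_eq_finrank, ← hd]
    exact (Module.finrank_mul_finrank M K L).symm
  · rw [card_gal]
    exact hL

end Pool.Agent.K3h18.PQ
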