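import Pool.Agent.K3h18.PQ.Link
import Pool.Agent.K3h87.PQ.SQE
import Pool.Agent.K3h87.PQ.GSS
import Pool.Agent.K3h90.PQ.Prm

/-!
# Extensions of prime degree, assembly
-/

set_option autoImplicit false

namespace Pool.Agent.K3h18.PQ

open NumberField Pool.Agent.K3h18.PX

/-- an extension of prime degree `p` in a Galois extension -/
theorem pp_prime (M K L : Type) [Field M] [NumberField M] [Field K] [NumberField K]
    [Field L] [NumberField L] [Algebra M K] [Algebra K L] [Algebra M L] [IsScalarTower M K L]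
    [IsGalois M L] (p : ℕ) (hp : p.Prime) (hp2 : p ≠ 2) (hd : Module.finrank M K = p)
    (hL : Module.finrank K L ∣ (p - 1) / 2) : PP (gal M M L) (gal M K L) :=
  pp_prime' (Pool.Agent.K3h90.PQ.t_PRM Pool.Agent.K3h87.PQ.t_SQE Pool.Agent.K3h87.PQ.t_GSS)
    M K L p hp hp2 hd hL

end Pool.Agent.K3h18.PQ
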